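import Pool.Agent.PRT.StmtsB

/-!
# Powers of a matrix near a shear (row MAT of squad PRT)

Problem MP_b2962a_an.
-/

set_option autoImplicit false

namespace Pool.Agent.PRT.H47

open Set MeasureTheory
open scoped ContDiff
open Pool.Agent.PRT

theorem split (A : E →L[ℝ] E) (z : E) : A z = z.1 • A (1, 0) + z.2 • A (0, 1) := by
  rw [← map_smul, ← map_smul, ← map_add]
  congr 1
  ext <;> simp

/-- Cayley-Hamilton -/
theorem ch (A : E →L[ℝ] E) (h : (1 + A).det = 1) (z : E) :
    A (A z) = -(A.det) • (z + A z) := by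
  have h1 := det_eq A
  have h2 := det_eq (1 + A)
  rw [h] at h2
  have h3 := split A z
  have h4 := split A (A z)
  simp only [ContinuousLinearMap.add_apply, ContinuousLinearMap.one_apply, cr] at h1 h2
  rw [h1, h4, h3]
  obtain ⟨x, y⟩ := z
  generalize A (1, 0) = u at *
  generalize A (0, 1) = v at *
  obtain ⟨a, c⟩ := u
  obtain ⟨b, e⟩ := v
  simp at h2 ⊢
  constructor
  · linear_combination (-(x * a + y * b)) * h2
  · linear_combination (-(x * c + y * e)) * h2

theorem step (A : E →L[ℝ] E) (n : ℕ) (h : (1 + A).det = 1)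
    (hn : (n : ℝ) ^ 2 * |A.det| ≤ 1 / 8) (j : ℕ) :
    j ≤ n → ∃ a b : ℝ, (∀ z, ((1 + A) ^ j) z = a • z + b • A z) ∧
      |a - 1| ≤ |A.det| * (j : ℝ) ^ 2 ∧ |b| ≤ 2 * j := by
  induction j with
  | zero =>
    intro _
    refine ⟨1, 0, fun z => by simp, by simp, by simp⟩
  | succ j ih =>
    intro hj
    obtain ⟨a, b, h1, h2, h3⟩ := ih (by omega)
    have hjn : ((j : ℝ) + 1) ≤ n := by exact_mod_cast hj
    have hj0 : (0 : ℝ) ≤ j := Nat.cast_nonneg j
    have hd0 : 0 ≤ |A.det| := abs_nonneg _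
    have e1 : |a - A.det * b - 1| ≤ |A.det| * ((j : ℝ) + 1) ^ 2 := by
      have : a - A.det * b - 1 = (a - 1) - A.det * b := by ring
      rw [this]
      calc |(a - 1) - A.det * b| ≤ |a - 1| + |A.det * b| := abs_sub _ _
        _ ≤ |A.det| * (j : ℝ) ^ 2 + |A.det| * (2 * j) := by
            rw [abs_mul]
            exact add_le_add h2 (mul_le_mul_of_nonneg_left h3 hd0)
        _ ≤ |A.det| * ((j : ℝ) + 1) ^ 2 := by nlinarith
    have e2 : |a - A.det * b| ≤ 2 := by
      have h4 : ((j : ℝ) + 1) ^ 2 ≤ (n : ℝ) ^ 2 := by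
        apply pow_le_pow_left₀ (by positivity) hjn
      have h5 : |A.det| * ((j : ℝ) + 1) ^ 2 ≤ 1 / 8 := by nlinarith
      have h6 := abs_le.mp (e1.trans h5)
      rw [abs_le]
      constructor <;> linarith [h6.1, h6.2]
    refine ⟨a - A.det * b, b + (a - A.det * b), ?_, ?_, ?_⟩
    · intro z
      rw [pow_succ', ContinuousLinearMap.mul_apply, h1 z, ContinuousLinearMap.add_apply,
        ContinuousLinearMap.one_apply, map_add, map_smul, map_smul, ch A h z]
      module
    · push_cast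
      exact e1
    · push_cast
      calc |b + (a - A.det * b)| ≤ |b| + |a - A.det * b| := abs_add_le _ _
        _ ≤ 2 * ((j : ℝ) + 1) := by linarith

/-- row MAT -/
theorem mat : MatStmt := by
  intro A n h hn j hj
  obtain ⟨a, b, h1, h2, h3⟩ := step A n h hn j hj
  have hj0 : (0 : ℝ) ≤ j := Nat.cast_nonneg j
  have hjn : (j : ℝ) ≤ n := by exact_mod_cast hj
  have hd0 : 0 ≤ |A.det| := abs_nonneg _
  have e2 : |a| ≤ 2 := by
    have h4 : (j : ℝ) ^ 2 ≤ (n : ℝ) ^ 2 := by
      apply pow_le_pow_left₀ (by positivity) hjn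
    have h5 : |A.det| * (j : ℝ) ^ 2 ≤ 1 / 8 := by nlinarith
    have h6 := abs_le.mp (h2.trans h5)
    rw [abs_le]
    constructor <;> linarith [h6.1, h6.2]
  refine ContinuousLinearMap.opNorm_le_bound _ (by positivity) ?_
  intro z
  rw [h1 z]
  calc ‖a • z + b • A z‖ ≤ ‖a • z‖ + ‖b • A z‖ := norm_add_le _ _
    _ = |a| * ‖z‖ + |b| * ‖A z‖ := by rw [norm_smul, norm_smul, Real.norm_eq_abs, Real.norm_eq_abs]
    _ ≤ 2 * ‖z‖ + (2 * j) * (‖A‖ * ‖z‖) := by
        have := A.le_opNorm z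
        gcongr
    _ = (2 + 2 * j * ‖A‖) * ‖z‖ := by ring

end Pool.Agent.PRT.H47
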