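import Pool.Agent.PRT.StmtsD

/-!
# Bounds for the coordinates (row UBD of squad PRT)

Problem MP_b2962a_an.
-/

set_option autoImplicit false

namespace Pool.Agent.PRT.H47

open Set MeasureTheory
open scoped ContDiff
open Pool.Agent.PRT

section

variable {V W : Type} [NormedAddCommGroup V] [NormedSpace ℝ V] [NormedAddCommGroup W]
  [NormedSpace ℝ W]

theorem clm_le (A : V →L[ℝ] W) {f : E → V} (hf : ContDiff ℝ ∞ f) (i : ℕ) (z : E) :
    ‖iteratedFDeriv ℝ i (fun z => A (f z)) z‖ ≤ ‖A‖ * ‖iteratedFDeriv ℝ i f z‖ := by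
  have hfi : ContDiffAt ℝ i f z := (hf.of_le (by exact_mod_cast le_top)).contDiffAt
  exact A.norm_iteratedFDeriv_comp_left (n := i) (x := z) hfi le_rfl

theorem bm_clm {k : ℕ} {C D : ℝ} (A : V →L[ℝ] W) (hA : ‖A‖ ≤ D) (hC : 0 ≤ C) {f : E → V}
    (hf : Bm k C f) (hs : ContDiff ℝ ∞ f) : Bm k (D * C) (fun z => A (f z)) := by
  intro i h1 h2 z
  refine (clm_le A hs i z).trans ?_
  have := hf i h1 h2 z
  gcongr
  exact (norm_nonneg _).trans hA

theorem bd_clm {k : ℕ} {C D : ℝ} (A : V →L[ℝ] W) (hA : ‖A‖ ≤ D) {f : E → V}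
    (hf : Bd k C f) (hs : ContDiff ℝ ∞ f) : Bd k (D * C) (fun z => A (f z)) := by
  intro i h2 z
  refine (clm_le A hs i z).trans ?_
  have := hf i h2 z
  have hC := hf.nonneg
  gcongr
  exact (norm_nonneg _).trans hA

end

theorem crL_norm : ‖crL‖ ≤ 2 := by
  refine ContinuousLinearMap.opNorm_le_bound _ (by norm_num) fun a => ?_
  refine ContinuousLinearMap.opNorm_le_bound _ (by positivity) fun u => ?_
  rw [crL_apply, Real.norm_eq_abs]
  exact abs_cr_le a u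

/-- `ip v` -/
noncomputable def ipL (v : E) : E →L[ℝ] ℝ :=
  v.1 • ContinuousLinearMap.fst ℝ ℝ ℝ + v.2 • ContinuousLinearMap.snd ℝ ℝ ℝ

theorem ipL_apply (v x : E) : ipL v x = ip v x := by
  simp [ipL, ip]

theorem ipL_norm (v : E) : ‖ipL v‖ ≤ 2 * ‖v‖ := by
  refine ContinuousLinearMap.opNorm_le_bound _ (by positivity) fun x => ?_
  rw [ipL_apply, Real.norm_eq_abs]
  exact abs_ip_le v x

theorem ip_lb (v : E) : ‖v‖ ^ 2 ≤ ip v v := by
  unfold ip
  rw [Prod.norm_def, Real.norm_eq_abs, Real.norm_eq_abs]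
  rcases max_cases |v.1| |v.2| with ⟨h, _⟩ | ⟨h, _⟩ <;> rw [h, sq_abs] <;> nlinarith [sq_nonneg v.1, sq_nonneg v.2]

/-- `x ↦ (ip v v)⁻¹ • ip v x • v` -/
noncomputable def PP (v : E) : E →L[ℝ] E := (ip v v)⁻¹ • (ipL v).smulRight v

theorem PP_apply (v x : E) : PP v x = (ip v v)⁻¹ • (ip v x • v) := by
  simp [PP, ipL_apply]

/-- `t ↦ (ip v v)⁻¹ • t • jj v` -/
noncomputable def PJ (v : E) : ℝ →L[ℝ] E :=
  (ip v v)⁻¹ • (ContinuousLinearMap.id ℝ ℝ).smulRight (jj v)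

theorem PJ_apply (v : E) (t : ℝ) : PJ v t = (ip v v)⁻¹ • (t • jj v) := by
  simp [PJ]

theorem jj_norm (v : E) : ‖jj v‖ = ‖v‖ := by
  unfold jj
  rw [Prod.norm_def, Prod.norm_def]
  simp [max_comm]

theorem inv_le {v : E} (hv : 0 < ‖v‖) : |(ip v v)⁻¹| ≤ (‖v‖ ^ 2)⁻¹ := by
  have h := ip_lb v
  have h0 : 0 < ‖v‖ ^ 2 := by positivity
  have h1 : 0 < ip v v := h0.trans_le h
  rw [abs_of_pos (inv_pos.mpr h1)]
  exact inv_anti₀ h0 h

theorem PP_norm {v : E} (hv : 0 < ‖v‖) : ‖PP v‖ ≤ 2 := by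
  refine ContinuousLinearMap.opNorm_le_bound _ (by norm_num) fun x => ?_
  rw [PP_apply, norm_smul, norm_smul, Real.norm_eq_abs, Real.norm_eq_abs]
  have h1 := inv_le hv
  have h2 := abs_ip_le v x
  calc |(ip v v)⁻¹| * (|ip v x| * ‖v‖) ≤ (‖v‖ ^ 2)⁻¹ * ((2 * ‖v‖ * ‖x‖) * ‖v‖) := by gcongr
    _ = 2 * ‖x‖ := by field_simp

theorem PJ_norm {v : E} (hv : 0 < ‖v‖) : ‖PJ v‖ ≤ ‖v‖⁻¹ := by
  refine ContinuousLinearMap.opNorm_le_bound _ (by positivity) fun t => ?_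
  rw [PJ_apply, norm_smul, norm_smul, jj_norm, Real.norm_eq_abs]
  have h1 := inv_le hv
  calc |(ip v v)⁻¹| * (‖t‖ * ‖v‖) ≤ (‖v‖ ^ 2)⁻¹ * (‖t‖ * ‖v‖) := by gcongr
    _ = ‖v‖⁻¹ * ‖t‖ := by field_simp

theorem UU_eq (v : E) (H : E → E) (S : E → ℝ) (z : E) : UU v H S z = PP v (H z) + PJ v (S z) := by
  rw [PP_apply, PJ_apply, UU, smul_add]

theorem dec {v : E} (hv : 0 < ‖v‖) (x : E) : PP v x + PJ v (cr v x) = x := by
  have h := ip_lb v
  have h0 : 0 < ‖v‖ ^ 2 := by positivity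
  have h1 : ip v v ≠ 0 := (h0.trans_le h).ne'
  rw [PP_apply, PJ_apply, ← smul_add, inv_smul_eq_iff₀ h1]
  unfold ip cr jj
  ext <;> simp <;> ring

/-- row UBD -/
theorem ubd : UbdStmt := by
  intro k c0
  refine ⟨c0 + k + 9, 5, ?_⟩
  intro F g v w C l N H S hl hN hF hH hS eH eS bH bS b1 b2
  have hv := hN.v0
  have hl1 := hN.l1
  have hl0 : 0 < l := by linarith
  have he1 : ‖v‖ ≤ 1 := by
    have h1 := hN.lN
    have h2 : 1 ≤ l ^ (2 * N) := one_le_pow₀ hl1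
    nlinarith [norm_nonneg v]
  have hP1 : (1 : ℝ) ≤ l ^ c0 := one_le_pow₀ hl1
  have hP2 : (1 : ℝ) ≤ l ^ (k + 8) := one_le_pow₀ hl1
  have hc : 5 * (l ^ c0 * l ^ (k + 8)) ≤ l ^ (c0 + k + 9) := by
    have : l ^ (c0 + k + 9) = l * (l ^ c0 * l ^ (k + 8)) := by ring
    rw [this]
    exact mul_le_mul_of_nonneg_right hl (by positivity)
  have sg : ContDiff ℝ ∞ g := hN.lf.sm
  have sphi : ContDiff ℝ ∞ (fun z => g z - z) := sg.sub contDiff_id
  have scr : ContDiff ℝ ∞ (fun z => crL (g z - z)) := crL.contDiff.comp sphi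
  have sdS : ContDiff ℝ ∞ (fderiv ℝ S) := hS.fderiv_right (by simp)
  -- the derivatives of `S`
  have bmS : Bm k (‖v‖ * (l ^ c0 + 2 * l ^ (k + 8))) S := by
    intro i h1 h2 z
    obtain ⟨j, rfl⟩ : ∃ j, i = j + 1 := ⟨i - 1, by omega⟩
    rw [← norm_iteratedFDeriv_fderiv]
    have e : fderiv ℝ S = fun z => (fderiv ℝ S z - crL (g z - z)) + crL (g z - z) := by
      funext z
      abel
    rw [e]
    have s1 : ContDiff ℝ ∞ (fun z => fderiv ℝ S z - crL (g z - z)) := sdS.sub scr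
    have hfi : ContDiffAt ℝ j (fun z => fderiv ℝ S z - crL (g z - z)) z :=
      (s1.of_le (by exact_mod_cast le_top)).contDiffAt
    have hgi : ContDiffAt ℝ j (fun z => crL (g z - z)) z :=
      (scr.of_le (by exact_mod_cast le_top)).contDiffAt
    rw [fun_iteratedFDeriv_add_apply hfi hgi]
    have q1 := bS j (by omega) z
    have q2 := clm_le crL sphi j z
    have q3 := hN.bd j (by omega) z
    have q4 : l ^ (j + 8) ≤ l ^ (k + 8) := pow_le_pow_right₀ hl1 (by omega)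
    have q5 := crL_norm
    have q6 : ‖v‖ ^ 2 * l ^ c0 ≤ ‖v‖ * l ^ c0 := by
      have : ‖v‖ ^ 2 ≤ ‖v‖ := by nlinarith
      gcongr
    calc ‖iteratedFDeriv ℝ j (fun z => fderiv ℝ S z - crL (g z - z)) z +
          iteratedFDeriv ℝ j (fun z => crL (g z - z)) z‖
        ≤ ‖iteratedFDeriv ℝ j (fun z => fderiv ℝ S z - crL (g z - z)) z‖ +
          ‖iteratedFDeriv ℝ j (fun z => crL (g z - z)) z‖ := norm_add_le _ _
      _ ≤ ‖v‖ * l ^ c0 + 2 * (‖v‖ * l ^ (k + 8)) := by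
          refine add_le_add (q1.trans q6) (q2.trans ?_)
          have q7 : ‖v‖ * l ^ (j + 8) ≤ ‖v‖ * l ^ (k + 8) := by gcongr
          calc ‖crL‖ * ‖iteratedFDeriv ℝ j (fun z => g z - z) z‖
              ≤ 2 * ‖iteratedFDeriv ℝ j (fun z => g z - z) z‖ := by gcongr
            _ ≤ 2 * (‖v‖ * l ^ (k + 8)) := by linarith [q3.trans q7]
      _ = ‖v‖ * (l ^ c0 + 2 * l ^ (k + 8)) := by ring
  have eU : UU v H S = fun z => PP v (H z) + PJ v (S z) := by
    funext z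
    exact UU_eq v H S z
  refine ⟨?_, ?_, ?_⟩
  · intro a b z
    rw [UU_eq, UU_eq, eH a b z, eS a b z, map_add, map_add]
    have := dec hv (iv a b)
    calc PP v (H z) + PP v (iv a b) + (PJ v (S z) + PJ v (cr v (iv a b)))
        = PP v (H z) + PJ v (S z) + (PP v (iv a b) + PJ v (cr v (iv a b))) := by abel
      _ = _ := by rw [this]
  · rw [eU]
    have c1 := bm_clm (PP v) (PP_norm hv) (by positivity) bH hH
    have c2 := bm_clm (PJ v) (PJ_norm hv) (by positivity) bmS hS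
    have c3 := c1.add c2 ((PP v).contDiff.comp hH) ((PJ v).contDiff.comp hS)
    refine c3.mono le_rfl ?_
    have : ‖v‖⁻¹ * (‖v‖ * (l ^ c0 + 2 * l ^ (k + 8))) = l ^ c0 + 2 * l ^ (k + 8) := by
      field_simp
    rw [this]
    nlinarith
  · have e : (fun z => UU v H S (F z) - UU v H S z - w) =
        fun z => PP v (H (F z) - H z - w) + PJ v (S (F z) - S z - cr v w) := by
      funext z
      rw [UU_eq, UU_eq]
      conv_lhs => rw [← dec hv w]
      simp only [map_sub]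
      abel
    rw [e]
    have s1 : ContDiff ℝ ∞ (fun z => H (F z) - H z - w) :=
      ((hH.comp hF).sub hH).sub contDiff_const
    have s2 : ContDiff ℝ ∞ (fun z => S (F z) - S z - cr v w) :=
      ((hS.comp hF).sub hS).sub contDiff_const
    have c1 := bd_clm (PP v) (PP_norm hv) b1 s1
    have c2 := bd_clm (PJ v) (PJ_norm hv) b2 s2
    have c3 := c1.add c2 ((PP v).contDiff.comp s1) ((PJ v).contDiff.comp s2)
    refine c3.mono le_rfl ?_
    have : 2 * (‖v‖ * l ^ c0) + ‖v‖⁻¹ * (‖v‖ ^ 2 * l ^ c0) = ‖v‖ * (3 * l ^ c0) := by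
      field_simp
      ring
    rw [this]
    refine mul_le_mul_of_nonneg_left ?_ hv.le
    nlinarith

end Pool.Agent.PRT.H47
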